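import Pool.Agent.H305.Prog

/-!
The exponential construction: from a program in which every edge sees `B` alternating pulses to
one in which every edge sees `2 B + 1`.
-/

namespace Pool.Agent.H305

open Classical

namespace Prog

variable {V W : Type}

/-! ### relabelling -/

theorem Forest.mono {F G : Set (V × V)} {p : Prog V} (h : Forest F p) (hGF : G ⊆ F) :
    Forest G p := by
  induction p generalizing F G with
  | nil => trivial
  | pulse v => trivial
  | seq p q hp hq => exact ⟨hp h.1 hGF, hq h.2 hGF⟩
  | edge x y p hp =>
      obtain ⟨⟨φ, h1, h2, h3⟩, h4⟩ := h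
      exact ⟨⟨φ, fun e he => h1 e (hGF he), h2, h3⟩, hp h4 (Set.insert_subset_insert hGF)⟩

theorem uses_map {S : Set V} {f : V → W} {p : Prog V} (h : Uses S p) : Uses (f '' S) (map f p) := by
  induction p with
  | nil => trivial
  | pulse v => exact ⟨v, h, rfl⟩
  | seq p q hp hq => exact ⟨hp h.1, hq h.2⟩
  | edge x y p hp => exact ⟨⟨x, h.1, rfl⟩, ⟨y, h.2.1, rfl⟩, hp h.2.2⟩

theorem uses_mono {S T : Set V} {p : Prog V} (h : Uses S p) (hST : S ⊆ T) : Uses T p := by
  induction p with
  | nil => trivial
  | pulse v => exact hST h
  | seq p q hp hq => exact ⟨hp h.1, hq h.2⟩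
  | edge x y p hp => exact ⟨hST h.1, hST h.2.1, hp h.2.2⟩

theorem uses_pl {S : Set V} {p : Prog V} (h : Uses S p) : ∀ v ∈ pl p, v ∈ S := by
  induction p with
  | nil => intro v hv; simp [pl] at hv
  | pulse v => intro w hw; simp [pl] at hw; subst hw; exact h
  | seq p q hp hq =>
      intro v hv
      simp only [pl, List.mem_append] at hv
      rcases hv with hv | hv
      · exact hp h.1 v hv
      · exact hq h.2 v hv
  | edge x y p hp => exact hp h.2.2

theorem blocks_map {B : ℕ} {S : Set V} {f : V → W} (hf : Set.InjOn f S) {p : Prog V}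
    (hS : Uses S p) (h : Blocks B p) : Blocks B (map f p) := by
  induction p with
  | nil => trivial
  | pulse v => trivial
  | seq p q hp hq => exact ⟨hp hS.1 h.1, hq hS.2 h.2⟩
  | edge x y p hp =>
      refine ⟨?_, hp hS.2.2 h.2⟩
      have := h.1
      rw [pl_map, wd_map_of f x y (pl p)]
      · exact this
      · intro v hv hvx
        exact hf (uses_pl hS.2.2 v hv) hS.1 hvx
      · intro v hv hvy
        exact hf (uses_pl hS.2.2 v hv) hS.2.1 hvy

theorem forest_map {S : Set V} {f : V → W} (hf : Set.InjOn f S) {p : Prog V} {F : Set (V × V)}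
    (hF : ∀ e ∈ F, e.1 ∈ S ∧ e.2 ∈ S)
    (hS : Uses S p) (h : Forest F p) : Forest (Prod.map f f '' F) (map f p) := by
  induction p generalizing F with
  | nil => trivial
  | pulse v => trivial
  | seq p q hp hq => exact ⟨hp hF hS.1 h.1, hq hF hS.2 h.2⟩
  | edge x y p hp =>
      obtain ⟨⟨φ, h1, h2, h3⟩, h4⟩ := h
      have key : ∀ v ∈ S, decide (∃ w ∈ S, f w = f v ∧ φ w = true) = φ v := by
        intro v hv
        by_cases hφ : φ v = true
        · rw [hφ]; simp only [decide_eq_true_eq]; exact ⟨v, hv, rfl, hφ⟩
        · have : φ v = false := by simpa using hφ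
          rw [this]; simp only [decide_eq_false_iff_not]
          rintro ⟨w, hw, hwv, hw'⟩
          have := hf hw hv hwv
          subst this; exact hφ hw'
      refine ⟨⟨fun u => decide (∃ w ∈ S, f w = u ∧ φ w = true), ?_, ?_, ?_⟩, ?_⟩
      · rintro _ ⟨e, he, rfl⟩
        simp only [Prod.map_fst, Prod.map_snd]
        rw [key _ (hF e he).1, key _ (hF e he).2, h1 e he]
      · exact (key _ hS.1).trans h2
      · exact (key _ hS.2.1).trans h3
      · have := hp (F := insert (x, y) F) ?_ hS.2.2 h4
        · rwa [Set.image_insert_eq] at this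
        · intro e he
          rcases he with rfl | he
          · exact ⟨hS.1, hS.2.1⟩
          · exact hF e he

/-! ### copies -/

/-- all bit lists of length `k` -/
def idx : ℕ → List (List Bool)
  | 0 => [[]]
  | k + 1 => (idx k).map (List.cons false) ++ (idx k).map (List.cons true)

theorem length_idx (k : ℕ) : (idx k).length = 2 ^ k := by
  induction k with
  | zero => rfl
  | succ k ih => simp [idx, ih, pow_succ]; ring

theorem mem_idx {k : ℕ} {l : List Bool} : l ∈ idx k ↔ l.length = k := by
  induction k generalizing l with
  | zero => simp [idx, List.length_eq_zero_iff]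
  | succ k ih =>
      cases l with
      | nil => simp [idx]
      | cons b l =>
          cases b <;> simp [idx, ih]

theorem nodup_idx (k : ℕ) : (idx k).Nodup := by
  induction k with
  | zero => simp [idx]
  | succ k ih =>
      rw [idx, List.nodup_append']
      refine ⟨ih.map (fun a b h => by simpa using h), ih.map (fun a b h => by simpa using h), ?_⟩
      intro l h1 h2
      simp only [List.mem_map] at h1 h2
      obtain ⟨a, _, rfl⟩ := h1
      obtain ⟨b, _, hb⟩ := h2
      simp at hb

/-- the copies of the edges in `F` -/
def cop (k : ℕ) (F : Set (V × V)) : Set ((V × List Bool) × (V × List Bool)) :=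
  {e | ∃ f ∈ F, ∃ l : List Bool, l.length = k ∧ e = ((f.1, l), (f.2, l))}

/-- the embedding of a half run -/
def inj (t : Bool) (φ : V → Bool) (v : V × List Bool) : V × List Bool :=
  (v.1, (xor t (φ v.1)) :: v.2)

theorem inj_injective (t : Bool) (φ : V → Bool) : Function.Injective (inj t φ) := by
  rintro ⟨v, l⟩ ⟨w, m⟩ h
  simp only [inj, Prod.mk.injEq, List.cons.injEq] at h
  obtain ⟨h1, _, h3⟩ := h
  simp [h1, h3]

/-- a colouring for the edge `xy` constant on `F` (if there is one) -/
noncomputable def col (F : Set (V × V)) (x y : V) : V → Bool :=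
  if h : ∃ φ : V → Bool, (∀ e ∈ F, φ e.1 = φ e.2) ∧ φ x = false ∧ φ y = true then h.choose
  else fun _ => false

theorem col_spec {F : Set (V × V)} {x y : V}
    (h : ∃ φ : V → Bool, (∀ e ∈ F, φ e.1 = φ e.2) ∧ φ x = false ∧ φ y = true) :
    (∀ e ∈ F, col F x y e.1 = col F x y e.2) ∧ col F x y x = false ∧ col F x y y = true := by
  unfold col
  rw [dif_pos h]
  exact h.choose_spec

/-- the transformation -/
noncomputable def TE : Set (V × V) → Prog V → ℕ → Prog (V × List Bool) → Prog (V × List Bool)
  | _, nil, _, E => E
  | _, pulse v, k, E =>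
      seq (pulseAll ((idx k).map (fun l => (v, l))))
        (seq E (pulseAll ((idx k).map (fun l => (v, l)))))
  | F, seq p q, k, E => TE F q (k + tasks p) (TE F p k E)
  | F, edge x y p, k, E =>
      edges ((idx (k + 1 + tasks p)).map (fun l => ((x, l), (y, l))))
        (TE (insert (x, y) F) p (k + 1)
          (seq (map (inj false (col F x y)) E) (map (inj true (col F x y)) E)))

theorem tasks_TE (F : Set (V × V)) (p : Prog V) (k : ℕ) (E : Prog (V × List Bool)) :
    tasks (TE F p k E) = tasks E * 2 ^ tasks p + tasks p * 2 ^ (k + tasks p) := by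
  induction p generalizing F k E with
  | nil => simp [TE, tasks]
  | pulse v => simp [TE, tasks]
  | seq p q hp hq =>
      simp only [TE, hp, hq, tasks]
      ring
  | edge x y p hp =>
      simp only [TE, hp, tasks, tasks_edges, List.length_map, length_idx, tasks_map]
      ring

theorem pulses_TE (F : Set (V × V)) (p : Prog V) (k : ℕ) (E : Prog (V × List Bool)) :
    pulses (TE F p k E) = pulses E * 2 ^ tasks p + 2 * pulses p * 2 ^ (k + tasks p) := by
  induction p generalizing F k E with
  | nil => simp [TE, tasks, pulses]
  | pulse v => simp [TE, tasks, pulses, length_idx]; ring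
  | seq p q hp hq =>
      simp only [TE, hp, hq, tasks, pulses]
      ring
  | edge x y p hp =>
      simp only [TE, hp, tasks, pulses, pulses_edges, pulses_map]
      ring

/-! ### the forest property -/

theorem forest_inj (F : Set (V × V)) (φ : V → Bool) (x y : V) (t : Bool) (k : ℕ)
    (hφ : ∀ e ∈ F, φ e.1 = φ e.2) (hx : φ x = false) (hy : φ y = true)
    (p : Prog (V × List Bool)) (H : Set ((V × List Bool) × (V × List Bool)))
    (h : Forest (H ∪ cop k F) p) :
    Forest (Prod.map (inj t φ) (inj t φ) '' H ∪ cop (k + 1) (insert (x, y) F))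
      (map (inj t φ) p) := by
  induction p generalizing H with
  | nil => trivial
  | pulse v => trivial
  | seq p q hp hq => exact ⟨hp H h.1, hq H h.2⟩
  | edge u v q hq =>
      obtain ⟨⟨ψ, h1, h2, h3⟩, h4⟩ := h
      refine ⟨?_, ?_⟩
      · let Ψ : V × List Bool → Bool := fun w =>
          match w.2 with
          | [] => false
          | c :: l => if xor c (φ w.1) = t then ψ (w.1, l) else
              if φ w.1 = true then ψ (x, l) else ψ (y, l)
        have hΨ : ∀ w, Ψ (inj t φ w) = ψ w := by
          rintro ⟨w, l⟩
          simp only [Ψ, inj]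
          rw [if_pos]
          cases t <;> cases φ w <;> rfl
        refine ⟨Ψ, ?_, ?_, ?_⟩
        · rintro e (⟨e', he', rfl⟩ | ⟨f, hf, l, hl, rfl⟩)
          · simp only [Prod.map_fst, Prod.map_snd, hΨ]
            exact h1 e' (Or.inl he')
          · cases l with
            | nil => simp at hl
            | cons c l =>
                have hl' : l.length = k := by simpa using hl
                rcases hf with rfl | hf
                · simp only [Ψ, hx, hy]
                  cases c <;> cases t <;> simp
                · have h5 := hφ f hf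
                  have h6 : ψ (f.1, l) = ψ (f.2, l) :=
                    h1 _ (Or.inr ⟨f, hf, l, hl', rfl⟩)
                  simp only [Ψ, h5, h6]
        · rw [hΨ]; exact h2
        · rw [hΨ]; exact h3
      · have h5 := hq (insert (u, v) H) (by rwa [Set.insert_union])
        rw [Set.image_insert_eq, Set.insert_union] at h5
        exact h5

theorem forest_edges (F : Set (V × V)) (φ : V → Bool) (x y : V) (k : ℕ)
    (hφ : ∀ e ∈ F, φ e.1 = φ e.2) (hx : φ x = false) (hy : φ y = true)
    (E : Prog (V × List Bool)) (hE : Forest (cop k (insert (x, y) F)) E)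
    (L : List (List Bool)) (hL : L.Nodup) (hk : ∀ l, l.length ≠ k → l ∉ L)
    (G : Set ((V × List Bool) × (V × List Bool)))
    (hG : ∀ e ∈ G, (∃ f ∈ F, ∃ l : List Bool, e = ((f.1, l), (f.2, l))) ∨
      ∃ l : List Bool, l ∉ L ∧ e = ((x, l), (y, l)))
    (hG2 : cop k F ⊆ G) (hG3 : ∀ l : List Bool, l.length = k → l ∉ L → ((x, l), (y, l)) ∈ G)
    (hG4 : G ⊆ cop k (insert (x, y) F)) :
    Forest G (edges (L.map (fun l => ((x, l), (y, l)))) E) := by
  induction L generalizing G with
  | nil =>
      refine Forest.mono hE hG4
  | cons l L ih =>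
      have hl : l.length = k := by
        by_contra hne
        exact hk l hne (by simp)
      refine ⟨⟨fun w => if w.2 = l then φ w.1 else false, ?_, ?_, ?_⟩, ?_⟩
      · intro e he
        rcases hG e he with ⟨f, hf, m, rfl⟩ | ⟨m, hm, rfl⟩
        · simp only [hφ f hf]
        · have : m ≠ l := fun h => hm (by simp [h])
          simp [this]
      · simp [hx]
      · simp [hy]
      · apply ih (List.nodup_cons.1 hL).2
        · intro m hm hmL
          exact hk m hm (by simp [hmL])
        · intro e he
          rcases he with rfl | he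
          · exact Or.inr ⟨l, (List.nodup_cons.1 hL).1, rfl⟩
          · rcases hG e he with h | ⟨m, hm, rfl⟩
            · exact Or.inl h
            · exact Or.inr ⟨m, fun h => hm (by simp [h]), rfl⟩
        · exact fun e he => Or.inr (hG2 he)
        · intro m hm hmL
          by_cases h : m = l
          · subst h; exact Or.inl rfl
          · exact Or.inr (hG3 m hm (by simp [h, hmL]))
        · intro e he
          rcases he with rfl | he
          · exact ⟨(x, y), by simp, l, hl, rfl⟩
          · exact hG4 he

theorem forest_TE {F : Set (V × V)} {p : Prog V} (hp : Forest F p) (k : ℕ)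
    (E : Prog (V × List Bool)) (hE : Forest (cop k F) E) :
    Forest (cop (k + tasks p) F) (TE F p k E) := by
  induction p generalizing F k E with
  | nil => simpa [TE, tasks] using hE
  | pulse v =>
      simp only [TE, tasks]
      exact ⟨forest_pulseAll _ _, hE, forest_pulseAll _ _⟩
  | seq p q ihp ihq =>
      simp only [TE, tasks]
      rw [← Nat.add_assoc]
      exact ihq hp.2 _ _ (ihp hp.1 _ _ hE)
  | edge x y p ihp =>
      obtain ⟨hex, h4⟩ := hp
      obtain ⟨h1, h2, h3⟩ := col_spec hex
      have hE1 : Forest (cop (k + 1) (insert (x, y) F))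
          (seq (map (inj false (col F x y)) E) (map (inj true (col F x y)) E)) := by
        constructor
        · have := forest_inj F (col F x y) x y false k h1 h2 h3 E ∅ (by simpa using hE)
          simpa using this
        · have := forest_inj F (col F x y) x y true k h1 h2 h3 E ∅ (by simpa using hE)
          simpa using this
      have hE2 := ihp h4 (k + 1) _ hE1
      simp only [TE, tasks]
      have harith : k + (tasks p + 1) = k + 1 + tasks p := by ring
      rw [harith]
      apply forest_edges F (col F x y) x y _ h1 h2 h3 _ hE2 _ (nodup_idx _)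
      · intro l hl hmem
        exact hl (mem_idx.1 hmem)
      · rintro e ⟨f, hf, l, _, rfl⟩
        exact Or.inl ⟨f, hf, l, rfl⟩
      · exact le_refl _
      · intro l hl hmem
        exact absurd (mem_idx.2 hl) hmem
      · rintro e ⟨f, hf, l, hl, rfl⟩
        exact ⟨f, by simp [hf], l, hl, rfl⟩

end Prog

end Pool.Agent.H305
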