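import Pool.Agent.H305.Opt

/-!
The main theorem on dynamic restricted assignment with reassignments.
-/

namespace Pool.Agent.H305

open Prog

theorem good_fin (r K : ℕ) : ∃ (n : ℕ) (P : Prog (Fin n)), 0 < tasks P ∧
    K * pulses P ≤ tasks P ∧ Forest ∅ P ∧ Blocks (2 ^ (r + 1) - 1) P := by
  classical
  obtain ⟨V, X, P, h0, h1, h2, h3, h4, h5⟩ := good_all r K
  let f : V → Fin (X.length + 1) := fun v => ⟨X.idxOf v, Nat.lt_succ_of_le List.idxOf_le_length⟩
  have hf : Set.InjOn f {v | v ∈ X} := by
    intro v hv w hw h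
    have : X.idxOf v = X.idxOf w := congrArg Fin.val h
    exact (List.idxOf_inj hv).1 this
  refine ⟨X.length + 1, map f P, ?_, ?_, ?_, ?_⟩
  · rw [tasks_map]; exact h0
  · rw [tasks_map, pulses_map]; exact h1
  · have := forest_map hf (F := ∅) (by simp) h3 h4
    simpa using this
  · exact blocks_map hf h3 h5

variable {n : ℕ}

theorem card_flat (P : Prog (Fin n)) : ∀ (F : Set (Fin n × Fin n)), Forest F P → ∀ (k j : ℕ)
    (M : Finset (Fin n)), Event.arrive j M ∈ flat k P → M.card = 2 := by
  induction P with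
  | nil => intro F _ k j M h; simp [flat] at h
  | pulse v => intro F _ k j M h; simp [flat] at h
  | seq p q ihp ihq =>
      intro F hF k j M h
      simp only [flat, List.mem_append] at h
      rcases h with h | h
      · exact ihp F hF.1 k j M h
      · exact ihq F hF.2 _ j M h
  | edge x y p ihp =>
      intro F hF k j M h
      obtain ⟨⟨φ, hφ1, hφ2, hφ3⟩, hF2⟩ := hF
      have hxy : x ≠ y := by
        intro h; subst h; rw [hφ2] at hφ3; cases hφ3
      simp only [flat, List.mem_cons, List.mem_append, Event.arrive.injEq, reduceCtorEq,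
        List.not_mem_nil, or_false] at h
      rcases h with ⟨rfl, rfl⟩ | h
      · exact Finset.card_pair hxy
      · exact ihp _ hF2 _ j M h

/-- For all constants `c` and `B` there is an event sequence, all of whose tasks have two
eligible machines and whose optimal cost is at most one, such that serving it with cost at most
`c` needs more than `B` reassignments per event, even when the sequence is known in advance. -/
theorem strong (c B : ℕ) : ∃ (n : ℕ) (σ : List (Event n)), Legal σ ∧ OPT σ ≤ 1 ∧
    (∀ j M, Event.arrive j M ∈ σ → M.card = 2) ∧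
    ∀ F : ℕ → Assignment n, (∀ t ≤ σ.length, Proper (active (σ.take t)) (F t)) →
      cost σ F ≤ c → B * σ.length < reassignments σ F := by
  obtain ⟨n, P, h1, h2, h3, h4⟩ := good_fin (2 * B + 3) (2 * c)
  refine ⟨n, flat 0 P, legal_flat P, OPT_flat_le P h3, fun j M h => card_flat P _ h3 0 j M h, ?_⟩
  intro F hF hc
  obtain ⟨b, hb, hb2⟩ : ∃ b, 2 ^ (2 * B + 3 + 1) - 1 = b + 1 ∧ 2 * B + 2 ≤ b := by
    have : 2 * B + 3 + 1 < 2 ^ (2 * B + 3 + 1) := Nat.lt_two_pow_self
    exact ⟨2 ^ (2 * B + 3 + 1) - 2, by omega, by omega⟩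
  rw [hb] at h4
  have hlen := length_flat 0 P
  generalize hσ : flat 0 P = σ at *
  have hmin : ∀ t, active (σ.take t) = active (σ.take (min t σ.length)) := by
    intro t
    rcases le_total t σ.length with h | h
    · rw [min_eq_left h]
    · rw [min_eq_right h, List.take_of_length_le h, List.take_length]
  have key := main_ineq b c (fun t => active (σ.take t)) (fun t => F (min t σ.length))
    (by
      intro t
      rw [hmin t]
      exact hF _ (min_le_right _ _))
    (by
      intro t i
      rw [hmin t]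
      have e1 : load (active (σ.take (min t σ.length))) (F (min t σ.length)) i ≤
          maxLoad (active (σ.take (min t σ.length))) (F (min t σ.length)) :=
        Finset.le_sup (f := fun i => load (active (σ.take (min t σ.length)))
          (F (min t σ.length)) i) (Finset.mem_univ i)
      have e2 : maxLoad (active (σ.take (min t σ.length))) (F (min t σ.length)) ≤ cost σ F :=
        Finset.le_sup (f := fun t => maxLoad (active (σ.take t)) (F t))
          (Finset.mem_range.2 (Nat.lt_succ_of_le (min_le_right _ _)))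
      exact e1.trans (e2.trans hc))
    P ∅ h3 h4 0 0 [] (by simp) (by simp) (by
      intro i _
      simp only [Nat.zero_add, List.map_nil, hσ]
      rfl)
  have hR : (∑ i ∈ Finset.range (2 * tasks P),
      mv (fun t => active (σ.take t)) (fun t => F (min t σ.length)) (0 + i)) =
      reassignments σ F := by
    rw [reassignments, hlen]
    apply Finset.sum_congr rfl
    intro i hi
    have hi := Finset.mem_range.1 hi
    simp only [mv, Nat.zero_add]
    rw [min_eq_left (by omega), min_eq_left (by omega)]
  rw [hR] at key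
  simp only [List.map_nil, List.sum_nil, Nat.zero_add, Nat.add_zero] at key
  have h5 : (2 * B + 2) * tasks P ≤ b * tasks P := Nat.mul_le_mul_right _ hb2
  rw [hlen]
  have h6 : (2 * B + 2) * tasks P = B * (2 * tasks P) + tasks P + tasks P := by ring
  omega

theorem legal_take {σ : List (Event n)} (h : Legal σ) (t : ℕ) : Legal (σ.take t) := by
  intro h' e r heq
  apply h h' e (r ++ σ.drop t)
  calc σ = σ.take t ++ σ.drop t := (List.take_append_drop t σ).symm
    _ = _ := by rw [heq]; simp

/-- No online algorithm is `c`-competitive with at most `C` reassignments per event. -/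
theorem main : ∀ c C : ℝ, ¬ ∃ A : OnlineAlgorithm,
    (∀ (n : ℕ) (σ : List (Event n)), Legal σ → Proper (active σ) (A n σ)) ∧
    (∀ (n : ℕ) (σ : List (Event n)), Legal σ → (cost σ (run A σ) : ℝ) ≤ c * (OPT σ : ℝ)) ∧
    (∀ (n : ℕ) (σ : List (Event n)), Legal σ →
      (reassignments σ (run A σ) : ℝ) ≤ C * (σ.length : ℝ)) := by
  rintro c C ⟨A, h1, h2, h3⟩
  obtain ⟨n, σ, a1, a2, -, a4⟩ := strong ⌈|c|⌉₊ ⌈|C|⌉₊
  have b1 := a4 (run A σ) (fun t _ => h1 n _ (legal_take a1 t)) (by
    have e1 := h2 n σ a1
    have e2 : c * (OPT σ : ℝ) ≤ |c| := by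
      have e3 : (OPT σ : ℝ) ≤ 1 := by exact_mod_cast a2
      have e4 : (0 : ℝ) ≤ (OPT σ : ℝ) := Nat.cast_nonneg _
      calc c * (OPT σ : ℝ) ≤ |c| * (OPT σ : ℝ) := mul_le_mul_of_nonneg_right (le_abs_self c) e4
        _ ≤ |c| * 1 := mul_le_mul_of_nonneg_left e3 (abs_nonneg c)
        _ = |c| := mul_one _
    have e5 : (cost σ (run A σ) : ℝ) ≤ (⌈|c|⌉₊ : ℝ) := (e1.trans e2).trans (Nat.le_ceil _)
    exact_mod_cast e5)
  have b2 := h3 n σ a1
  have b3 : C * (σ.length : ℝ) ≤ (⌈|C|⌉₊ : ℝ) * (σ.length : ℝ) := by
    apply mul_le_mul_of_nonneg_right _ (Nat.cast_nonneg _)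
    exact (le_abs_self C).trans (Nat.le_ceil _)
  have b4 : (reassignments σ (run A σ) : ℝ) ≤ ((⌈|C|⌉₊ * σ.length : ℕ) : ℝ) := by
    push_cast
    exact b2.trans b3
  have b5 : reassignments σ (run A σ) ≤ ⌈|C|⌉₊ * σ.length := by exact_mod_cast b4
  omega

end Pool.Agent.H305
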