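import Mathlib

/-!
Dynamic restricted assignment of unit tasks with reassignments.
-/

namespace Pool.Agent.H305

/-- An event on `n` machines: the arrival of the unit size task with identifier `j` and set of
eligible machines `M`, or the departure of the task `j`. -/
inductive Event (n : ℕ) : Type where
  | arrive (j : ℕ) (M : Finset (Fin n))
  | depart (j : ℕ)

/-- A task: its identifier and its set of eligible machines. -/
abbrev Task (n : ℕ) := ℕ × Finset (Fin n)

/-- The list of active tasks after one more event. -/
def update {n : ℕ} (s : List (Task n)) : Event n → List (Task n)
  | .arrive j M => (j, M) :: s
  | .depart j => s.filter (fun q => q.1 ≠ j)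

/-- The tasks which are active after the events of the list `h` (in this order). -/
def active {n : ℕ} (h : List (Event n)) : List (Task n) := h.foldl update []

/-- The event may follow the events `h`: an arriving task has a nonempty set of eligible
machines and a new identifier, a departing task is active. -/
def Allowed {n : ℕ} (h : List (Event n)) : Event n → Prop
  | .arrive j M => M.Nonempty ∧ ∀ M', Event.arrive j M' ∉ h
  | .depart j => ∃ M, (j, M) ∈ active h

/-- `σ` is an event sequence of the model: every event of `σ` may follow the events before it. -/
def Legal {n : ℕ} (σ : List (Event n)) : Prop :=
  ∀ h e r, σ = h ++ e :: r → Allowed h e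

/-- An assignment puts the task with identifier `j` on the machine `f j`. -/
abbrev Assignment (n : ℕ) := ℕ → Option (Fin n)

/-- `f` puts every task of the list `s` on one of its eligible machines. -/
def Proper {n : ℕ} (s : List (Task n)) (f : Assignment n) : Prop :=
  ∀ q ∈ s, ∃ i ∈ q.2, f q.1 = some i

/-- The load of machine `i`: the number of tasks of `s` which `f` puts on `i`. -/
def load {n : ℕ} (s : List (Task n)) (f : Assignment n) (i : Fin n) : ℕ :=
  s.countP (fun q => f q.1 = some i)

/-- The maximum load of a machine. -/
def maxLoad {n : ℕ} (s : List (Task n)) (f : Assignment n) : ℕ :=
  Finset.univ.sup (fun i => load s f i)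

/-- The minimum over all proper assignments of the tasks in `s` of the maximum load. -/
noncomputable def optLoad {n : ℕ} (s : List (Task n)) : ℕ :=
  sInf {L | ∃ f : Assignment n, Proper s f ∧ maxLoad s f = L}

/-- `OPT(σ)`: the maximum over the times `t` (after `t` events) of the optimal maximum load for
the tasks which are active at time `t`. -/
noncomputable def OPT {n : ℕ} (σ : List (Event n)) : ℕ :=
  (Finset.range (σ.length + 1)).sup (fun t => optLoad (active (σ.take t)))

/-- The cost along `σ` of a history `F` of assignments (`F t` is in force after `t` events):
the maximum over all times and machines of the load. -/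
def cost {n : ℕ} (σ : List (Event n)) (F : ℕ → Assignment n) : ℕ :=
  (Finset.range (σ.length + 1)).sup (fun t => maxLoad (active (σ.take t)) (F t))

/-- The number of reassignments along `σ` of a history `F` of assignments: at each event, the
number of tasks which are active before and after the event and change their machine. -/
def reassignments {n : ℕ} (σ : List (Event n)) (F : ℕ → Assignment n) : ℕ :=
  ∑ t ∈ Finset.range σ.length, (active (σ.take t)).countP
    (fun q => q ∈ active (σ.take (t + 1)) ∧ F t q.1 ≠ F (t + 1) q.1)

/-- An online algorithm: for every number `n` of machines and every list `h` of events revealed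
so far, `A n h` is the assignment the algorithm has in force after reacting to the last event
of `h`. -/
abbrev OnlineAlgorithm := (n : ℕ) → List (Event n) → Assignment n

/-- The history of assignments of the online algorithm `A` on the sequence `σ`: the assignment
after `t` events depends only on these `t` events. -/
def run (A : OnlineAlgorithm) {n : ℕ} (σ : List (Event n)) : ℕ → Assignment n :=
  fun t => A n (σ.take t)

end Pool.Agent.H305
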