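import Pool.Agent.H305.Words
import Pool.Agent.H305.Model

/-!
From good programs to lower bounds for the number of reassignments.
-/

namespace Pool.Agent.H305

open Prog

/-! ### the cost of serving a word -/

/-- the least cost (one per switch, two per pulse at the current side) of a word, starting on
side `s` -/
def val : List Bool → Bool → ℕ
  | [], _ => 0
  | b :: w, s => min ((if s = b then 2 else 0) + val w s)
      (1 + ((if (!s) = b then 2 else 0) + val w (!s)))

theorem val_lip (w : List Bool) (s : Bool) : val w s ≤ 1 + val w (!s) := by
  cases w with
  | nil => simp [val]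
  | cons b w =>
      simp only [val, Bool.not_not]
      omega

theorem val_cons_ge (b : Bool) (w : List Bool) (s : Bool) : val w s ≤ val (b :: w) s := by
  have := val_lip w s
  simp only [val]
  omega

theorem val_mono {l w : List Bool} (h : l.Sublist w) : ∀ s, val l s ≤ val w s := by
  induction h with
  | slnil => intro s; exact le_refl _
  | cons b _ ih => intro s; exact (ih s).trans (val_cons_ge b _ s)
  | cons_cons b _ ih =>
      intro s
      have h1 := ih s
      have h2 := ih (!s)
      simp only [val]
      omega

theorem val_alt : ∀ (l : List Bool), l.IsChain (· ≠ ·) → ∀ s,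
    l.length ≤ val l s + 1 ∧ (l.head? = some s → l.length ≤ val l s) := by
  intro l
  induction l with
  | nil => intro _ s; simp
  | cons b l ih =>
      intro h s
      have h1 : l.IsChain (· ≠ ·) := h.tail
      have h2 := ih h1
      have hhead : l = [] ∨ l.head? = some (!b) := by
        cases l with
        | nil => exact Or.inl rfl
        | cons c l =>
            right
            have hbc : b ≠ c := by
              have := List.isChain_cons_cons.1 h
              exact this.1
            cases b <;> cases c <;> simp_all
      have h3 : l.length ≤ val l (!b) := by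
        rcases hhead with h | h
        · simp [h]
        · exact (h2 (!b)).2 h
      have h4 : l.length ≤ val l b + 1 := (h2 b).1
      by_cases hs : s = b
      · subst hs
        simp only [val, List.length_cons]
        have : (!s) ≠ s := by cases s <;> simp
        simp only [if_true, this, if_false]
        constructor
        · omega
        · intro _; omega
      · have hs' : s = !b := by cases s <;> cases b <;> simp_all
        subst hs'
        simp only [val, List.length_cons, Bool.not_not]
        have : (!b) ≠ b := by cases b <;> simp
        simp only [this, if_false, if_true]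
        constructor
        · omega
        · intro h
          simp at h

theorem val_of_alt {B : ℕ} {w : List Bool} (h : Alt (B + 1) w) (s : Bool) : B ≤ val w s := by
  obtain ⟨l, h1, h2, h3⟩ := h
  have := (val_alt l h2 s).1
  have := val_mono h1 s
  omega

/-! ### programs as event sequences -/

variable {n : ℕ}

/-- the event sequence of a program; the identifiers start with `k` -/
def flat : ℕ → Prog (Fin n) → List (Event n)
  | _, .nil => []
  | _, .pulse _ => []
  | k, .seq p q => flat k p ++ flat (k + tasks p) q
  | k, .edge x y p => Event.arrive k {x, y} :: (flat (k + 1) p ++ [Event.depart k])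

theorem length_flat (k : ℕ) (p : Prog (Fin n)) : (flat k p).length = 2 * tasks p := by
  induction p generalizing k with
  | nil => rfl
  | pulse v => rfl
  | seq p q hp hq => simp only [flat, List.length_append, hp, hq, tasks]; ring
  | edge x y p hp =>
      simp only [flat, List.length_cons, List.length_append, hp, tasks, List.length_nil]; ring

theorem foldl_flat (k : ℕ) (p : Prog (Fin n)) (s : List (Task n)) (hs : ∀ q ∈ s, q.1 < k) :
    (flat k p).foldl update s = s := by
  induction p generalizing k s with
  | nil => rfl
  | pulse v => rfl
  | seq p q hp hq =>
      simp only [flat, List.foldl_append]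
      rw [hp k s hs, hq (k + tasks p) s (fun q hq => by have := hs q hq; omega)]
  | edge x y p hp =>
      simp only [flat, List.foldl_cons, List.foldl_append, update, List.foldl_nil]
      rw [hp (k + 1) ((k, {x, y}) :: s)]
      · rw [List.filter_cons]
        simp only [ne_eq, not_true_eq_false, decide_false, Bool.false_eq_true, if_false]
        rw [List.filter_eq_self]
        intro q hq
        have := hs q hq
        simp only [decide_eq_true_eq]
        omega
      · intro q hq
        rcases List.mem_cons.1 hq with rfl | hq
        · exact Nat.lt_succ_self _
        · have := hs q hq; omega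

/-- bookkeeping for a present edge -/
structure Rec (n : ℕ) where
  /-- identifier -/
  id : ℕ
  /-- first end -/
  x : Fin n
  /-- second end -/
  y : Fin n
  /-- the pulses to come -/
  r : List Bool

/-- the task of an edge -/
def Rec.task (g : Rec n) : Task n := (g.id, {g.x, g.y})

/-- side of the edge -/
def st (f : Assignment n) (g : Rec n) : Bool := decide (f g.id = some g.x)

theorem sum_step (f f' : Assignment n) (s' : List (Task n)) (w : Rec n → List Bool)
    (Γ : List (Rec n)) (h : ∀ g ∈ Γ, g.task ∈ s') :
    (Γ.map (fun g => val (w g) (st f g))).sum ≤
      (Γ.map Rec.task).countP (fun q => q ∈ s' ∧ f q.1 ≠ f' q.1) +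
        (Γ.map (fun g => val (w g) (st f' g))).sum := by
  induction Γ with
  | nil => simp
  | cons g Γ ih =>
      have ih' := ih (fun g hg => h g (by simp [hg]))
      have hg := h g (by simp)
      simp only [List.map_cons, List.sum_cons, List.countP_cons]
      by_cases hf : f g.id = f' g.id
      · have : st f g = st f' g := by simp [st, hf]
        rw [this]
        omega
      · have h1 : val (w g) (st f g) ≤ 1 + val (w g) (st f' g) := by
          by_cases hst : st f g = st f' g
          · rw [hst]; omega
          · have : st f' g = !(st f g) := by
              cases h1 : st f g <;> cases h2 : st f' g <;> simp_all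
            rw [this]; exact val_lip _ _
        have h2 : (g.task ∈ s' ∧ f g.task.1 ≠ f' g.task.1) := ⟨hg, hf⟩
        rw [if_pos (decide_eq_true h2)]
        omega

theorem sum_pulse (f : Assignment n) (v : Fin n) (Γ : List (Rec n))
    (h : ∀ g ∈ Γ, f g.id = some g.x ∨ f g.id = some g.y) (hne : ∀ g ∈ Γ, g.x ≠ g.y) :
    (Γ.map (fun g => val (wd g.x g.y [v] ++ g.r) (st f g))).sum ≤
      2 * load (Γ.map Rec.task) f v + (Γ.map (fun g => val g.r (st f g))).sum := by
  induction Γ with
  | nil => simp
  | cons g Γ ih =>
      have ih' := ih (fun g hg => h g (by simp [hg])) (fun g hg => hne g (by simp [hg]))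
      have hg := h g (by simp)
      have hn := hne g (by simp)
      simp only [load] at ih'
      simp only [List.map_cons, List.sum_cons, load, List.countP_cons]
      have key : val (wd g.x g.y [v] ++ g.r) (st f g) ≤
          2 * (if f g.task.1 = some v then 1 else 0) + val g.r (st f g) := by
        have ht : g.task.1 = g.id := rfl
        rw [ht]
        by_cases h1 : v = g.x
        · subst h1
          have hw : wd g.x g.y [g.x] = [true] := by simp [wd]
          rw [hw]
          by_cases h2 : f g.id = some g.x
          · have hs : st f g = true := by simp [st, h2]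
            rw [hs, if_pos h2]
            simp only [List.singleton_append, val, if_true]
            omega
          · have hs : st f g = false := by simp [st, h2]
            rw [hs, if_neg h2]
            simp only [List.singleton_append, val, Bool.false_eq_true, if_false]
            omega
        · by_cases h2 : v = g.y
          · subst h2
            have hw : wd g.x g.y [g.y] = [false] := by simp [wd, h1]
            rw [hw]
            by_cases h3 : f g.id = some g.x
            · have hs : st f g = true := by simp [st, h3]
              rw [hs]
              simp only [List.singleton_append, val, Bool.true_eq_false, if_false]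
              omega
            · have h4 : f g.id = some g.y := by tauto
              have hs : st f g = false := by simp [st, h3]
              rw [hs, if_pos h4]
              simp only [List.singleton_append, val, if_true]
              omega
          · have hw : wd g.x g.y [v] = [] := by simp [wd, h1, h2]
            rw [hw, List.nil_append]
            omega
      by_cases h2 : f g.task.1 = some v
      · simp only [h2, if_true, decide_true] at key ⊢
        omega
      · simp only [h2, if_false, decide_false] at key ⊢
        simp only [Bool.false_eq_true, if_false]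
        omega

/-- the number of moves between time `t` and `t + 1` -/
def mv (act : ℕ → List (Task n)) (A : ℕ → Assignment n) (t : ℕ) : ℕ :=
  (act t).countP (fun q => q ∈ act (t + 1) ∧ A t q.1 ≠ A (t + 1) q.1)

theorem main_ineq (B c : ℕ) (act : ℕ → List (Task n)) (A : ℕ → Assignment n)
    (hproper : ∀ t, Proper (act t) (A t)) (hload : ∀ t i, load (act t) (A t) i ≤ c)
    (P : Prog (Fin n)) : ∀ (F : Set (Fin n × Fin n)), Forest F P → Blocks (B + 1) P →
    ∀ (τ k : ℕ) (Γ : List (Rec n)), (∀ g ∈ Γ, g.id < k) → (∀ g ∈ Γ, g.x ≠ g.y) →
    (∀ i ≤ 2 * tasks P, act (τ + i) = ((flat k P).take i).foldl update (Γ.map Rec.task)) →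
    (Γ.map (fun g => val (wd g.x g.y (pl P) ++ g.r) (st (A τ) g))).sum + B * tasks P ≤
      (∑ i ∈ Finset.range (2 * tasks P), mv act A (τ + i)) + 2 * c * pulses P +
        (Γ.map (fun g => val g.r (st (A (τ + 2 * tasks P)) g))).sum := by
  induction P with
  | nil =>
      intro F _ _ τ k Γ _ _ _
      simp [pl, tasks, pulses]
  | pulse v =>
      intro F _ _ τ k Γ hid hne hact
      have h0 : act τ = Γ.map Rec.task := by simpa [flat] using hact 0 (by omega)
      have h1 : ∀ g ∈ Γ, A τ g.id = some g.x ∨ A τ g.id = some g.y := by
        intro g hg
        obtain ⟨i, hi, hi2⟩ := hproper τ g.task (by rw [h0]; exact List.mem_map_of_mem hg)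
        simp only [Rec.task, Finset.mem_insert, Finset.mem_singleton] at hi hi2
        rcases hi with rfl | rfl
        · exact Or.inl hi2
        · exact Or.inr hi2
      have h2 := sum_pulse (A τ) v Γ h1 hne
      have h3 := hload τ v
      rw [h0] at h3
      simp only [pl, tasks, pulses, Nat.mul_zero, Finset.range_zero, Finset.sum_empty,
        Nat.add_zero, Nat.zero_add, Nat.mul_one]
      omega
  | seq p q ihp ihq =>
      intro F hF hB τ k Γ hid hne hact
      simp only [tasks] at hact ⊢
      -- first half, with the pulses of the second half still to come
      let Γ' : List (Rec n) := Γ.map (fun g => ⟨g.id, g.x, g.y, wd g.x g.y (pl q) ++ g.r⟩)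
      have hΓ' : Γ'.map Rec.task = Γ.map Rec.task := by
        simp only [Γ', List.map_map]; rfl
      have h1 := ihp F hF.1 hB.1 τ k Γ' (by
          intro g hg; simp only [Γ', List.mem_map] at hg; obtain ⟨g', hg', rfl⟩ := hg
          exact hid g' hg') (by
          intro g hg; simp only [Γ', List.mem_map] at hg; obtain ⟨g', hg', rfl⟩ := hg
          exact hne g' hg') (by
          intro i hi
          rw [hact i (by omega), hΓ', flat, List.take_append_of_le_length]
          rw [length_flat]; exact hi)
      have hs : ∀ q ∈ Γ.map Rec.task, q.1 < k := by
        intro q hq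
        simp only [List.mem_map] at hq
        obtain ⟨g, hg, rfl⟩ := hq
        exact hid g hg
      have h2 := ihq F hF.2 hB.2 (τ + 2 * tasks p) (k + tasks p) Γ (by
          intro g hg; have := hid g hg; omega) hne (by
          intro i hi
          rw [Nat.add_assoc, hact (2 * tasks p + i) (by omega), flat]
          rw [← length_flat k p, List.take_length_add_append, List.foldl_append,
            foldl_flat k p _ hs])
      have h3 : (Γ'.map (fun g => val (wd g.x g.y (pl p) ++ g.r) (st (A τ) g))).sum =
          (Γ.map (fun g => val (wd g.x g.y (pl (seq p q)) ++ g.r) (st (A τ) g))).sum := by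
        simp only [Γ', List.map_map, Function.comp_def, pl, wd_append, List.append_assoc]; rfl
      have h4 : (Γ'.map (fun g => val g.r (st (A (τ + 2 * tasks p)) g))).sum =
          (Γ.map (fun g => val (wd g.x g.y (pl q) ++ g.r) (st (A (τ + 2 * tasks p)) g))).sum := by
        simp only [Γ', List.map_map, Function.comp_def]; rfl
      rw [h3, h4] at h1
      have h5 : 2 * (tasks p + tasks q) = 2 * tasks p + 2 * tasks q := by ring
      rw [h5, Finset.sum_range_add]
      simp only [← Nat.add_assoc] at h2 ⊢
      simp only [pulses]
      have h6 : B * (tasks p + tasks q) = B * tasks p + B * tasks q := by ring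
      have h7 : 2 * c * (pulses p + pulses q) = 2 * c * pulses p + 2 * c * pulses q := by ring
      rw [h6, h7]
      omega
  | edge x y p ihp =>
      intro F hF hB τ k Γ hid hne hact
      obtain ⟨⟨φ, hφ1, hφ2, hφ3⟩, hF2⟩ := hF
      have hxy : x ≠ y := by
        intro h; subst h; rw [hφ2] at hφ3; cases hφ3
      simp only [tasks] at hact ⊢
      have hs : ∀ q ∈ Γ.map Rec.task, q.1 < k := by
        intro q hq
        simp only [List.mem_map] at hq
        obtain ⟨g, hg, rfl⟩ := hq
        exact hid g hg
      have hs' : ∀ q ∈ (k, ({x, y} : Finset (Fin n))) :: Γ.map Rec.task, q.1 < k + 1 := by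
        intro q hq
        rcases List.mem_cons.1 hq with rfl | hq
        · exact Nat.lt_succ_self _
        · have := hs q hq; omega
      have a0 : act τ = Γ.map Rec.task := by simpa [flat] using hact 0 (by omega)
      have a1 : ∀ i ≤ 2 * tasks p, act (τ + 1 + i) =
          ((flat (k + 1) p).take i).foldl update ((k, {x, y}) :: Γ.map Rec.task) := by
        intro i hi
        have := hact (i + 1) (by omega)
        rw [flat, List.take_succ_cons, List.foldl_cons, List.take_append_of_le_length] at this
        · rw [show τ + 1 + i = τ + (i + 1) by ring]
          exact this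
        · rw [length_flat]; exact hi
      have a2 : act (τ + 1) = (k, {x, y}) :: Γ.map Rec.task := by simpa using a1 0 (by omega)
      have a3 : act (τ + 1 + 2 * tasks p) = (k, {x, y}) :: Γ.map Rec.task := by
        rw [a1 _ (le_refl _), ← length_flat (k + 1) p, List.take_length,
          foldl_flat _ _ _ hs']
      have a4 : act (τ + 1 + 2 * tasks p + 1) = Γ.map Rec.task := by
        have h1 := hact (2 * (tasks p + 1)) (le_refl _)
        have h2 : 2 * (tasks p + 1) = (flat k (edge x y p)).length := by
          rw [length_flat]; rfl
        rw [h2, List.take_length, ← h2, foldl_flat _ _ _ hs] at h1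
        rw [← h1]
        congr 1; ring
      let g0 : Rec n := ⟨k, x, y, []⟩
      have h1 := ihp (insert (x, y) F) hF2 hB.2 (τ + 1) (k + 1) (g0 :: Γ) (by
          intro g hg
          rcases List.mem_cons.1 hg with rfl | hg
          · exact Nat.lt_succ_self _
          · have := hid g hg; omega) (by
          intro g hg
          rcases List.mem_cons.1 hg with rfl | hg
          · exact hxy
          · exact hne g hg) (by
          intro i hi
          rw [a1 i hi]; rfl)
      simp only [List.map_cons, List.sum_cons, g0] at h1
      have h2 : B ≤ val (wd x y (pl p) ++ []) (st (A (τ + 1)) ⟨k, x, y, []⟩) := by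
        rw [List.append_nil]
        exact val_of_alt hB.1 _
      have h3 := sum_step (A τ) (A (τ + 1)) (act (τ + 1))
        (fun g => wd g.x g.y (pl p) ++ g.r) Γ (by
          intro g hg
          rw [a2]
          exact List.mem_cons_of_mem _ (List.mem_map_of_mem hg))
      have h4 := sum_step (A (τ + 1 + 2 * tasks p)) (A (τ + 1 + 2 * tasks p + 1))
        (act (τ + 1 + 2 * tasks p + 1)) (fun g => g.r) Γ (by
          intro g hg
          rw [a4]
          exact List.mem_map_of_mem hg)
      have h5 : mv act A τ = (Γ.map Rec.task).countP
          (fun q => q ∈ act (τ + 1) ∧ A τ q.1 ≠ A (τ + 1) q.1) := by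
        rw [mv, a0]
      have h6 : (Γ.map Rec.task).countP (fun q => q ∈ act (τ + 1 + 2 * tasks p + 1) ∧
            A (τ + 1 + 2 * tasks p) q.1 ≠ A (τ + 1 + 2 * tasks p + 1) q.1) ≤
          mv act A (τ + 1 + 2 * tasks p) := by
        rw [mv, a3, List.countP_cons]
        omega
      have h7 : ∑ i ∈ Finset.range (2 * (tasks p + 1)), mv act A (τ + i) =
          mv act A τ + ∑ i ∈ Finset.range (2 * tasks p), mv act A (τ + 1 + i) +
            mv act A (τ + 1 + 2 * tasks p) := by
        rw [show 2 * (tasks p + 1) = (2 * tasks p + 1) + 1 by ring, Finset.sum_range_succ,
          Finset.sum_range_succ']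
        have e8 : ∑ i ∈ Finset.range (2 * tasks p), mv act A (τ + (i + 1)) =
            ∑ i ∈ Finset.range (2 * tasks p), mv act A (τ + 1 + i) :=
          Finset.sum_congr rfl (fun i _ => by rw [show τ + (i + 1) = τ + 1 + i by ring])
        have e9 : mv act A (τ + 0) = mv act A τ := by rw [Nat.add_zero]
        have e10 : mv act A (τ + (2 * tasks p + 1)) = mv act A (τ + 1 + 2 * tasks p) := by
          rw [show τ + (2 * tasks p + 1) = τ + 1 + 2 * tasks p by ring]
        rw [e8, e9, e10]
        omega
      rw [h7, h5]
      have e2 : τ + 2 * (tasks p + 1) = τ + 1 + 2 * tasks p + 1 := by ring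
      rw [e2]
      simp only [pl, pulses]
      have e3 : B * (tasks p + 1) = B * tasks p + B := by ring
      rw [e3]
      have e4 : val [] (st (A (τ + 1 + 2 * tasks p)) ⟨k, x, y, []⟩) = 0 := rfl
      rw [e4] at h1
      omega

end Pool.Agent.H305
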