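import Pool.Agent.H305.Lower

/-!
The event sequences of forest programs are legal and their optimal load is at most one.
-/

namespace Pool.Agent.H305

open Prog

variable {n : ℕ}

/-! ### forests of tasks have assignments of load one -/

/-- lists of edges with identifiers in which every edge joins two components of the graph formed
by the edges after it in the list -/
inductive FL : List (ℕ × Fin n × Fin n) → Prop
  | nil : FL []
  | cons (Γ : List (ℕ × Fin n × Fin n)) (j : ℕ) (x y : Fin n) (h : FL Γ)
      (hj : ∀ g ∈ Γ, g.1 < j)
      (hφ : ∃ φ : Fin n → Bool, (∀ g ∈ Γ, φ g.2.1 = φ g.2.2) ∧ φ x = false ∧ φ y = true) :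
      FL ((j, x, y) :: Γ)

/-- the task of an edge -/
def tk (g : ℕ × Fin n × Fin n) : Task n := (g.1, {g.2.1, g.2.2})

theorem orient {Γ : List (ℕ × Fin n × Fin n)} (h : FL Γ) : ∀ r : Fin n, ∃ f : ℕ → Fin n,
    (∀ g ∈ Γ, f g.1 = g.2.1 ∨ f g.1 = g.2.2) ∧ (∀ i, Γ.countP (fun g => f g.1 = i) ≤ 1) ∧
      Γ.countP (fun g => f g.1 = r) = 0 := by
  induction h with
  | nil => intro r; exact ⟨fun _ => r, by simp, by simp, by simp⟩
  | cons Γ j x y h hj hφ ih =>
      intro r
      obtain ⟨φ, hφ1, hφ2, hφ3⟩ := hφ
      obtain ⟨z, hz, hz2⟩ : ∃ z, (z = x ∨ z = y) ∧ φ z ≠ φ r := by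
        by_cases hr : φ r = false
        · exact ⟨y, Or.inr rfl, by rw [hr, hφ3]; simp⟩
        · exact ⟨x, Or.inl rfl, by rw [hφ2]; exact fun h => hr h.symm⟩
      obtain ⟨f1, a1, a2, a3⟩ := ih r
      obtain ⟨f2, b1, b2, b3⟩ := ih z
      let f : ℕ → Fin n := fun g => if g = j then z else if φ (f1 g) = φ r then f1 g else f2 g
      have hf : ∀ g ∈ Γ, f g.1 = if φ (f1 g.1) = φ r then f1 g.1 else f2 g.1 := by
        intro g hg
        have := hj g hg
        simp only [f]
        rw [if_neg (by omega)]
      have hfj : f j = z := by simp [f]
      have key : ∀ g ∈ Γ, φ (f1 g.1) = φ (f2 g.1) := by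
        intro g hg
        have h1 := hφ1 g hg
        rcases a1 g hg with h | h <;> rcases b1 g hg with h' | h' <;> rw [h, h'] <;> simp [h1]
      have c1 : ∀ i, φ i = φ r →
          Γ.countP (fun g => f g.1 = i) ≤ Γ.countP (fun g => f1 g.1 = i) := by
        intro i hi
        apply List.countP_mono_left
        intro g hg h
        simp only [decide_eq_true_eq] at h ⊢
        rw [hf g hg] at h
        by_cases h3 : φ (f1 g.1) = φ r
        · rwa [if_pos h3] at h
        · rw [if_neg h3] at h
          exact absurd (by rw [key g hg, h, hi]) h3
      have c2 : ∀ i, φ i ≠ φ r →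
          Γ.countP (fun g => f g.1 = i) ≤ Γ.countP (fun g => f2 g.1 = i) := by
        intro i hi
        apply List.countP_mono_left
        intro g hg h
        simp only [decide_eq_true_eq] at h ⊢
        rw [hf g hg] at h
        by_cases h3 : φ (f1 g.1) = φ r
        · rw [if_pos h3] at h
          rw [h] at h3; exact absurd h3 hi
        · rwa [if_neg h3] at h
      refine ⟨f, ?_, ?_, ?_⟩
      · intro g hg
        rcases List.mem_cons.1 hg with rfl | hg
        · rw [hfj]; exact hz
        · rw [hf g hg]
          split_ifs
          · exact a1 g hg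
          · exact b1 g hg
      · intro i
        rw [List.countP_cons]
        simp only [hfj]
        by_cases hi : φ i = φ r
        · have h1 : z ≠ i := by rintro rfl; exact hz2 hi
          simp only [h1, decide_false, Bool.false_eq_true, if_false]
          have h2 := c1 i hi
          have h3 := a2 i
          omega
        · have e1 := c2 i hi
          have e2 := b2 i
          by_cases hzi : z = i
          · subst hzi
            simp only [decide_true, if_true]
            omega
          · simp only [hzi, decide_false, Bool.false_eq_true, if_false]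
            omega
      · rw [List.countP_cons]
        simp only [hfj]
        have h1 : z ≠ r := by rintro rfl; exact hz2 rfl
        simp only [h1, decide_false, Bool.false_eq_true, if_false]
        have h2 := c1 r rfl
        omega

theorem optLoad_le_one {Γ : List (ℕ × Fin n × Fin n)} (h : FL Γ) :
    optLoad (Γ.map tk) ≤ 1 := by
  obtain ⟨f, h1, h2⟩ : ∃ f : Assignment n, Proper (Γ.map tk) f ∧ maxLoad (Γ.map tk) f ≤ 1 := by
    cases Γ with
    | nil =>
        refine ⟨fun _ => none, by simp [Proper], ?_⟩
        apply Finset.sup_le
        intro i _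
        simp [load]
    | cons g0 Γ =>
        obtain ⟨f, h1, h2, -⟩ := orient h g0.2.1
        refine ⟨fun j => some (f j), ?_, ?_⟩
        · intro q hq
          obtain ⟨g, hg, rfl⟩ := List.mem_map.1 hq
          refine ⟨f g.1, ?_, rfl⟩
          simp only [tk, Finset.mem_insert, Finset.mem_singleton]
          exact h1 g hg
        · apply Finset.sup_le
          intro i _
          have h3 := h2 i
          rw [load, List.countP_map]
          refine le_trans (le_of_eq ?_) h3
          congr 1
          funext g
          simp [tk, Function.comp]
  exact le_trans (Nat.sInf_le ⟨f, h1, rfl⟩) h2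

theorem fold_FL (P : Prog (Fin n)) : ∀ (F : Set (Fin n × Fin n)), Forest F P →
    ∀ (k : ℕ) (Γ : List (ℕ × Fin n × Fin n)), FL Γ → (∀ g ∈ Γ, g.1 < k) →
    (∀ g ∈ Γ, (g.2.1, g.2.2) ∈ F) →
    ∀ i, ∃ Γ', FL Γ' ∧ ((flat k P).take i).foldl update (Γ.map tk) = Γ'.map tk := by
  induction P with
  | nil => intro F _ k Γ h _ _ i; exact ⟨Γ, h, by simp [flat]⟩
  | pulse v => intro F _ k Γ h _ _ i; exact ⟨Γ, h, by simp [flat]⟩
  | seq p q ihp ihq =>
      intro F hF k Γ h hid hin i
      have hs : ∀ q ∈ Γ.map tk, q.1 < k := by
        intro q hq
        obtain ⟨g, hg, rfl⟩ := List.mem_map.1 hq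
        exact hid g hg
      rcases le_or_gt i (flat k p).length with hi | hi
      · rw [flat, List.take_append_of_le_length hi]
        exact ihp F hF.1 k Γ h hid hin i
      · obtain ⟨i, rfl⟩ : ∃ i', i = (flat k p).length + i' := ⟨i - (flat k p).length, by omega⟩
        rw [flat, List.take_length_add_append, List.foldl_append, foldl_flat k p _ hs]
        exact ihq F hF.2 (k + tasks p) Γ h (fun g hg => by have := hid g hg; omega) hin i
  | edge x y p ihp =>
      intro F hF k Γ h hid hin i
      have hs : ∀ q ∈ Γ.map tk, q.1 < k := by
        intro q hq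
        obtain ⟨g, hg, rfl⟩ := List.mem_map.1 hq
        exact hid g hg
      obtain ⟨⟨φ, hφ1, hφ2, hφ3⟩, hF2⟩ := hF
      rcases le_or_gt (flat k (edge x y p)).length i with hi | hi
      · rw [List.take_of_length_le hi, foldl_flat _ _ _ hs]
        exact ⟨Γ, h, rfl⟩
      · cases i with
        | zero => exact ⟨Γ, h, rfl⟩
        | succ i =>
            have hi2 : i ≤ (flat (k + 1) p).length := by
              rw [length_flat] at hi ⊢
              simp only [tasks] at hi
              omega
            rw [flat, List.take_succ_cons, List.take_append_of_le_length hi2, List.foldl_cons]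
            have := ihp (insert (x, y) F) hF2 (k + 1) ((k, x, y) :: Γ)
              (FL.cons Γ k x y h hid ⟨φ, fun g hg => hφ1 _ (hin g hg), hφ2, hφ3⟩)
              (by
                intro g hg
                rcases List.mem_cons.1 hg with rfl | hg
                · exact Nat.lt_succ_self _
                · have := hid g hg; omega)
              (by
                intro g hg
                rcases List.mem_cons.1 hg with rfl | hg
                · exact Set.mem_insert _ _
                · exact Set.mem_insert_of_mem _ (hin g hg)) i
            exact this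

theorem OPT_flat_le (P : Prog (Fin n)) (hP : Forest ∅ P) : OPT (flat 0 P) ≤ 1 := by
  apply Finset.sup_le
  intro t _
  obtain ⟨Γ, h1, h2⟩ := fold_FL P ∅ hP 0 [] FL.nil (by simp) (by simp) t
  simp only [List.map_nil] at h2
  rw [active, h2]
  exact optLoad_le_one h1

/-! ### legality -/

/-- the events `l` may follow the events `h` -/
def LegalFrom (h l : List (Event n)) : Prop :=
  ∀ h' e r, l = h' ++ e :: r → Allowed (h ++ h') e

theorem legalFrom_cons {h : List (Event n)} {e : Event n} {l : List (Event n)}
    (h1 : Allowed h e) (h2 : LegalFrom (h ++ [e]) l) : LegalFrom h (e :: l) := by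
  intro h' e' r heq
  cases h' with
  | nil =>
      simp only [List.nil_append, List.cons.injEq] at heq
      rw [← heq.1, List.append_nil]
      exact h1
  | cons a h' =>
      simp only [List.cons_append, List.cons.injEq] at heq
      obtain ⟨rfl, heq⟩ := heq
      have := h2 h' e' r heq
      rw [List.append_assoc] at this
      exact this

theorem legalFrom_nil (h : List (Event n)) : LegalFrom h [] := by
  intro h' e r heq
  simp at heq

theorem legalFrom_append {h l1 l2 : List (Event n)} (h1 : LegalFrom h l1)
    (h2 : LegalFrom (h ++ l1) l2) : LegalFrom h (l1 ++ l2) := by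
  induction l1 generalizing h with
  | nil => simpa using h2
  | cons e l1 ih =>
      rw [List.cons_append]
      apply legalFrom_cons
      · have := h1 [] e l1 rfl
        simpa using this
      · apply ih
        · intro h' e' r heq
          have := h1 (e :: h') e' r (by rw [heq]; rfl)
          rw [List.append_assoc]
          exact this
        · rw [List.append_assoc]; exact h2

theorem ids_flat (k : ℕ) (P : Prog (Fin n)) (j : ℕ) (M : Finset (Fin n))
    (h : Event.arrive j M ∈ flat k P) : k ≤ j ∧ j < k + tasks P ∧ ∃ x y, M = {x, y} := by
  induction P generalizing k with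
  | nil => simp [flat] at h
  | pulse v => simp [flat] at h
  | seq p q ihp ihq =>
      simp only [flat, List.mem_append] at h
      simp only [tasks]
      rcases h with h | h
      · have := ihp k h; exact ⟨by omega, by omega, this.2.2⟩
      · have := ihq (k + tasks p) h; exact ⟨by omega, by omega, this.2.2⟩
  | edge x y p ihp =>
      simp only [flat, List.mem_cons, List.mem_append, Event.arrive.injEq, reduceCtorEq,
        List.not_mem_nil, or_false] at h
      simp only [tasks]
      rcases h with ⟨rfl, rfl⟩ | h
      · exact ⟨by omega, by omega, x, y, rfl⟩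
      · have := ihp (k + 1) h; exact ⟨by omega, by omega, this.2.2⟩

theorem active_append_flat (k : ℕ) (p : Prog (Fin n)) (h : List (Event n))
    (h2 : ∀ q ∈ active h, q.1 < k) : active (h ++ flat k p) = active h := by
  have := foldl_flat k p (active h) h2
  rw [active, List.foldl_append]
  exact this

theorem legalFrom_flat (P : Prog (Fin n)) : ∀ (k : ℕ) (h : List (Event n)),
    (∀ j M, Event.arrive j M ∈ h → j < k) → (∀ q ∈ active h, q.1 < k) →
    LegalFrom h (flat k P) := by
  induction P with
  | nil => intro k h _ _; exact legalFrom_nil h
  | pulse v => intro k h _ _; exact legalFrom_nil h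
  | seq p q ihp ihq =>
      intro k h h1 h2
      apply legalFrom_append (ihp k h h1 h2)
      apply ihq
      · intro j M hj
        rcases List.mem_append.1 hj with hj | hj
        · have := h1 j M hj; omega
        · exact (ids_flat k p j M hj).2.1
      · intro q hq
        rw [active_append_flat k p h h2] at hq
        have := h2 q hq
        omega
  | edge x y p ihp =>
      intro k h h1 h2
      have h3 : active (h ++ [Event.arrive k {x, y}]) = (k, {x, y}) :: active h := by
        rw [active, List.foldl_append]; rfl
      have h4 : ∀ q ∈ active (h ++ [Event.arrive k {x, y}]), q.1 < k + 1 := by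
        rw [h3]
        intro q hq
        rcases List.mem_cons.1 hq with rfl | hq
        · exact Nat.lt_succ_self _
        · have := h2 q hq; omega
      apply legalFrom_cons
      · refine ⟨⟨x, by simp⟩, fun M' hM' => ?_⟩
        exact absurd (h1 k M' hM') (lt_irrefl _)
      · apply legalFrom_append
        · apply ihp (k + 1) _ _ h4
          intro j M hj
          rcases List.mem_append.1 hj with hj | hj
          · have := h1 j M hj; omega
          · simp only [List.mem_singleton, Event.arrive.injEq] at hj
            omega
        · apply legalFrom_cons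
          · refine ⟨{x, y}, ?_⟩
            rw [active_append_flat (k + 1) p _ h4, h3]
            exact List.mem_cons_self
          · exact legalFrom_nil _

theorem legal_flat (P : Prog (Fin n)) : Legal (flat 0 P) := by
  have := legalFrom_flat P 0 [] (by simp) (by simp [active])
  intro h e r heq
  simpa using this h e r heq

end Pool.Agent.H305
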