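import Mathlib

/-!
Programs describing a well nested dynamic forest together with pulses at vertices.
-/

namespace Pool.Agent.H305

open Classical

/-- A program: `pulse v` marks the vertex `v` now; `edge x y p` means that a new edge `xy` is
present exactly while `p` is run. -/
inductive Prog (V : Type) : Type where
  | nil : Prog V
  | pulse (v : V) : Prog V
  | seq (p q : Prog V) : Prog V
  | edge (x y : V) (p : Prog V) : Prog V

namespace Prog

variable {V W : Type}

/-- number of edges -/
def tasks : Prog V → ℕ
  | nil => 0
  | pulse _ => 0
  | seq p q => tasks p + tasks q
  | edge _ _ p => tasks p + 1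

/-- number of pulses -/
def pulses : Prog V → ℕ
  | nil => 0
  | pulse _ => 1
  | seq p q => pulses p + pulses q
  | edge _ _ p => pulses p

/-- the list of pulsed vertices -/
def pl : Prog V → List V
  | nil => []
  | pulse v => [v]
  | seq p q => pl p ++ pl q
  | edge _ _ p => pl p

/-- relabelling of the vertices -/
def map (f : V → W) : Prog V → Prog W
  | nil => nil
  | pulse v => pulse (f v)
  | seq p q => seq (map f p) (map f q)
  | edge x y p => edge (f x) (f y) (map f p)

/-- all vertices lie in `S` -/
def Uses (S : Set V) : Prog V → Prop
  | nil => True
  | pulse v => v ∈ S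
  | seq p q => Uses S p ∧ Uses S q
  | edge x y p => x ∈ S ∧ y ∈ S ∧ Uses S p

/-- every inserted edge joins two different components: it is separated by a 2-colouring which
is constant along the edges that are present. -/
def Forest : Set (V × V) → Prog V → Prop
  | _, nil => True
  | _, pulse _ => True
  | F, seq p q => Forest F p ∧ Forest F q
  | F, edge x y p =>
      (∃ φ : V → Bool, (∀ e ∈ F, φ e.1 = φ e.2) ∧ φ x = false ∧ φ y = true) ∧
        Forest (insert (x, y) F) p

/-- the word of the pulses at `x` (true) and `y` (false) in a list of vertices -/
noncomputable def wd (x y : V) (L : List V) : List Bool :=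
  L.filterMap (fun v => if v = x then some true else if v = y then some false else none)

/-- `w` has an alternating subsequence of length `B` -/
def Alt (B : ℕ) (w : List Bool) : Prop :=
  ∃ l : List Bool, l.Sublist w ∧ l.IsChain (· ≠ ·) ∧ l.length = B

/-- every edge sees at least `B` alternating pulses during its life -/
def Blocks (B : ℕ) : Prog V → Prop
  | nil => True
  | pulse _ => True
  | seq p q => Blocks B p ∧ Blocks B q
  | edge x y p => Alt B (wd x y (pl p)) ∧ Blocks B p

/-- pulse all vertices of a list -/
def pulseAll (L : List V) : Prog V := L.foldr (fun v p => seq (pulse v) p) nil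

/-- `p` run with all edges of the list `L` present -/
def edges (L : List (V × V)) (p : Prog V) : Prog V := L.foldr (fun e q => edge e.1 e.2 q) p

/-! ### basic lemmas -/

theorem wd_append (x y : V) (L M : List V) : wd x y (L ++ M) = wd x y L ++ wd x y M := by
  simp [wd]

@[simp] theorem wd_nil (x y : V) : wd x y [] = [] := rfl

theorem wd_reverse (x y : V) (L : List V) : wd x y L.reverse = (wd x y L).reverse := by
  simp [wd, List.filterMap_reverse]

@[simp] theorem pl_edges (L : List (V × V)) (p : Prog V) : pl (edges L p) = pl p := by
  induction L with
  | nil => rfl
  | cons e L ih => simpa [edges, pl] using ih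

@[simp] theorem pl_pulseAll (L : List V) : pl (pulseAll L) = L := by
  induction L with
  | nil => rfl
  | cons e L ih => simpa [pulseAll, pl] using ih

theorem pl_map (f : V → W) (p : Prog V) : pl (map f p) = (pl p).map f := by
  induction p with
  | nil => rfl
  | pulse v => rfl
  | seq p q hp hq => simp [map, pl, hp, hq]
  | edge x y p hp => simpa [map, pl] using hp

@[simp] theorem tasks_pulseAll (L : List V) : tasks (pulseAll L) = 0 := by
  induction L with
  | nil => rfl
  | cons e L ih => simpa [pulseAll, tasks] using ih

@[simp] theorem pulses_pulseAll (L : List V) : pulses (pulseAll L) = L.length := by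
  induction L with
  | nil => rfl
  | cons e L ih =>
      have : pulses (pulseAll (e :: L)) = 1 + pulses (pulseAll L) := rfl
      rw [this, ih]; simp [Nat.add_comm]

@[simp] theorem tasks_edges (L : List (V × V)) (p : Prog V) :
    tasks (edges L p) = tasks p + L.length := by
  induction L with
  | nil => rfl
  | cons e L ih =>
      have : tasks (edges (e :: L) p) = tasks (edges L p) + 1 := rfl
      rw [this, ih]; simp [Nat.add_assoc]

@[simp] theorem pulses_edges (L : List (V × V)) (p : Prog V) :
    pulses (edges L p) = pulses p := by
  induction L with
  | nil => rfl
  | cons e L ih =>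
      have : pulses (edges (e :: L) p) = pulses (edges L p) := rfl
      rw [this, ih]

@[simp] theorem tasks_map (f : V → W) (p : Prog V) : tasks (map f p) = tasks p := by
  induction p with
  | nil => rfl
  | pulse v => rfl
  | seq p q hp hq => simp [map, tasks, hp, hq]
  | edge x y p hp => simp [map, tasks, hp]

@[simp] theorem pulses_map (f : V → W) (p : Prog V) : pulses (map f p) = pulses p := by
  induction p with
  | nil => rfl
  | pulse v => rfl
  | seq p q hp hq => simp [map, pulses, hp, hq]
  | edge x y p hp => simp [map, pulses, hp]

theorem forest_pulseAll (F : Set (V × V)) (L : List V) : Forest F (pulseAll L) := by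
  induction L with
  | nil => trivial
  | cons e L ih => exact ⟨trivial, ih⟩

theorem blocks_pulseAll (B : ℕ) (L : List V) : Blocks B (pulseAll L) := by
  induction L with
  | nil => trivial
  | cons e L ih => exact ⟨trivial, ih⟩

theorem uses_pulseAll (S : Set V) (L : List V) (h : ∀ v ∈ L, v ∈ S) : Uses S (pulseAll L) := by
  induction L with
  | nil => trivial
  | cons e L ih =>
      exact ⟨h e (by simp), ih (fun v hv => h v (by simp [hv]))⟩

/-- the word is unchanged by a relabelling which is injective on the vertices used -/
theorem wd_map_of (f : V → W) (x y : V) (L : List V)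
    (hx : ∀ v ∈ L, f v = f x → v = x) (hy : ∀ v ∈ L, f v = f y → v = y) :
    wd (f x) (f y) (L.map f) = wd x y L := by
  induction L with
  | nil => rfl
  | cons v L ih =>
      have ih' := ih (fun w hw => hx w (by simp [hw])) (fun w hw => hy w (by simp [hw]))
      have h1 : (f v = f x) ↔ v = x := ⟨hx v (by simp), fun h => by rw [h]⟩
      have h2 : (f v = f y) ↔ v = y := ⟨hy v (by simp), fun h => by rw [h]⟩
      have e1 : wd (f x) (f y) ((v :: L).map f) =
          ([f v].filterMap (fun w => if w = f x then some true else if w = f y then some false
            else none)) ++ wd (f x) (f y) (L.map f) := by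
        simp only [wd, List.map_cons]
        rw [← List.filterMap_append]; rfl
      have e2 : wd x y (v :: L) =
          ([v].filterMap (fun w => if w = x then some true else if w = y then some false
            else none)) ++ wd x y L := by
        simp only [wd]
        rw [← List.filterMap_append]; rfl
      rw [e1, e2, ih']
      congr 1
      simp only [List.filterMap_cons, List.filterMap_nil, h1, h2]

end Prog

end Pool.Agent.H305
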