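import Pool.Agent.H305.Exp

/-!
Alternating pulses in the transformed program, and the existence of good programs.
-/

namespace Pool.Agent.H305

open Classical

namespace Prog

variable {V W : Type}

theorem wd_cons (x y v : V) (L : List V) : wd x y (v :: L) = wd x y [v] ++ wd x y L := by
  rw [← wd_append]; rfl

theorem wd_nil_of (x y : V) (L : List V) (hx : x ∉ L) (hy : y ∉ L) : wd x y L = [] := by
  induction L with
  | nil => rfl
  | cons v L ih =>
      rw [wd_cons, ih (fun h => hx (by simp [h])) (fun h => hy (by simp [h]))]
      have h1 : v ≠ x := fun h => hx (by simp [h])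
      have h2 : v ≠ y := fun h => hy (by simp [h])
      simp [wd, h1, h2]

theorem true_mem_wd {x y : V} {L : List V} (hx : x ∈ L) : true ∈ wd x y L := by
  simp only [wd, List.mem_filterMap]
  exact ⟨x, hx, by simp⟩

theorem false_mem_wd {x y : V} (hxy : x ≠ y) {L : List V} (hy : y ∈ L) : false ∈ wd x y L := by
  simp only [wd, List.mem_filterMap]
  exact ⟨y, hy, by simp [hxy.symm]⟩

/-- pulses at all copies of `v` -/
theorem wd_copies (a b v : V) (l : List Bool) (L : List (List Bool)) (hL : L.Nodup) (hl : l ∈ L) :
    wd (a, l) (b, l) (L.map (fun m => (v, m))) = wd a b [v] := by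
  induction L with
  | nil => simp at hl
  | cons m L ih =>
      obtain ⟨hm, hL'⟩ := List.nodup_cons.1 hL
      rw [List.map_cons, wd_cons]
      by_cases h : m = l
      · subst h
        have h0 : wd (a, m) (b, m) (L.map (fun k => (v, k))) = [] := by
          apply wd_nil_of
          · intro h
            simp only [List.mem_map, Prod.mk.injEq] at h
            obtain ⟨k, hk, _, hkm⟩ := h
            subst hkm; exact hm hk
          · intro h
            simp only [List.mem_map, Prod.mk.injEq] at h
            obtain ⟨k, hk, _, hkm⟩ := h
            subst hkm; exact hm hk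
        rw [h0, List.append_nil]
        simp only [wd, List.filterMap_cons, List.filterMap_nil, Prod.mk.injEq, and_true]
      · have hl' : l ∈ L := by
          rcases List.mem_cons.1 hl with h' | h'
          · exact absurd h'.symm h
          · exact h'
        rw [ih hL' hl']
        have : wd (a, l) (b, l) [(v, m)] = [] := by simp [wd, h]
        rw [this, List.nil_append]

theorem wd_map_inj (f : V → W) (hf : Function.Injective f) (x y : V) (L : List V) :
    wd (f x) (f y) (L.map f) = wd x y L :=
  wd_map_of f x y L (fun _ _ h => hf h) (fun _ _ h => hf h)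

/-- words of present edges -/
theorem wd_TE {F : Set (V × V)} {p : Prog V} (hp : Forest F p) (k : ℕ)
    (E : Prog (V × List Bool)) (a b : V) (hab : (a, b) ∈ F) (l : List Bool)
    (hl : l.length = k + tasks p) :
    wd (a, l) (b, l) (pl (TE F p k E)) =
      (wd a b (pl p)).reverse ++ wd (a, l.drop (tasks p)) (b, l.drop (tasks p)) (pl E) ++
        wd a b (pl p) := by
  induction p generalizing F k E l with
  | nil => simp [TE, tasks, pl]
  | pulse v =>
      have hmem : l ∈ idx k := mem_idx.2 (by simpa [tasks] using hl)
      simp only [TE, pl, pl_pulseAll, wd_append, wd_copies a b v l _ (nodup_idx k) hmem, tasks,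
        List.drop_zero]
      have : (wd a b [v]).reverse = wd a b [v] := by
        rw [← wd_reverse]; rfl
      rw [this]
      simp
  | seq p q ihp ihq =>
      have hl2 : l.length = (k + tasks p) + tasks q := by simpa [tasks, Nat.add_assoc] using hl
      simp only [TE, pl]
      rw [ihq hp.2 _ _ hab l hl2, ihp hp.1 _ _ hab (l.drop (tasks q)) (by simp [hl2]),
        List.drop_drop, wd_append, List.reverse_append]
      simp [tasks, Nat.add_comm]
  | edge x y p ihp =>
      obtain ⟨hex, h4⟩ := hp
      obtain ⟨h1, h2, h3⟩ := col_spec hex
      have hl2 : l.length = (k + 1) + tasks p := by simp [tasks] at hl; omega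
      simp only [TE, pl, pl_edges]
      rw [ihp h4 _ _ (by simp [hab]) l hl2]
      congr 2
      have hlen : (l.drop (tasks p)).length = k + 1 := by simp [hl2]
      have hdd : l.drop (tasks (edge x y p)) = (l.drop (tasks p)).drop 1 := by
        simp [tasks, Nat.add_comm]
      rw [hdd]
      obtain ⟨c, l0, hc⟩ : ∃ c l0, l.drop (tasks p) = c :: l0 := by
        cases h : l.drop (tasks p) with
        | nil => rw [h] at hlen; simp at hlen
        | cons c l0 => exact ⟨c, l0, rfl⟩
      rw [hc]
      simp only [List.drop_succ_cons, List.drop_zero, pl, pl_map, wd_append]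
      set φ := col F x y with hφ
      have hab' : φ a = φ b := h1 _ hab
      have key : ∀ t : Bool, wd (a, c :: l0) (b, c :: l0) ((pl E).map (inj t φ)) =
          if t = xor c (φ a) then wd (a, l0) (b, l0) (pl E) else [] := by
        intro t
        by_cases ht : t = xor c (φ a)
        · rw [if_pos ht]
          have e1 : (a, c :: l0) = inj t φ (a, l0) := by
            simp only [inj, ht]; cases c <;> cases φ a <;> rfl
          have e2 : (b, c :: l0) = inj t φ (b, l0) := by
            simp only [inj, ht, hab']; cases c <;> cases φ b <;> rfl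
          rw [e1, e2, wd_map_inj _ (inj_injective t φ)]
        · rw [if_neg ht]
          apply wd_nil_of
          · intro h
            simp only [List.mem_map, inj, Prod.mk.injEq, List.cons.injEq] at h
            obtain ⟨w, _, hw1, hw2, _⟩ := h
            rw [hw1] at hw2
            apply ht
            revert hw2; cases t <;> cases c <;> cases φ a <;> simp
          · intro h
            simp only [List.mem_map, inj, Prod.mk.injEq, List.cons.injEq] at h
            obtain ⟨w, _, hw1, hw2, _⟩ := h
            rw [hw1] at hw2
            apply ht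
            rw [hab']
            revert hw2; cases t <;> cases c <;> cases φ b <;> simp
      rw [key, key]
      cases c <;> cases φ a <;> simp

/-- all copies of the vertices of `S` are pulsed -/
def Full (S : Set V) (k : ℕ) (E : Prog (V × List Bool)) : Prop :=
  ∀ v ∈ S, ∀ l : List Bool, l.length = k → (v, l) ∈ pl E

theorem full_half {S : Set V} {k : ℕ} {E : Prog (V × List Bool)} (h : Full S k E)
    (φ : V → Bool) :
    Full S (k + 1) (seq (map (inj false φ) E) (map (inj true φ) E)) := by
  intro v hv l hl
  cases l with
  | nil => simp at hl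
  | cons c l =>
      have hl' : l.length = k := by simpa using hl
      have h1 := h v hv l hl'
      simp only [pl, pl_map, List.mem_append, List.mem_map]
      cases hc : xor c (φ v) with
      | false =>
          left
          refine ⟨(v, l), h1, ?_⟩
          simp only [inj]
          revert hc; cases c <;> cases φ v <;> simp
      | true =>
          right
          refine ⟨(v, l), h1, ?_⟩
          simp only [inj]
          revert hc; cases c <;> cases φ v <;> simp

theorem full_TE {F : Set (V × V)} {p : Prog V} {S : Set V} (k : ℕ)
    (E : Prog (V × List Bool)) (hE : Full S k E) : Full S (k + tasks p) (TE F p k E) := by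
  induction p generalizing F k E with
  | nil => simpa [TE, tasks] using hE
  | pulse v =>
      intro w hw l hl
      simp only [TE, pl, List.mem_append]
      exact Or.inr (Or.inl (hE w hw l (by simpa [tasks] using hl)))
  | seq p q ihp ihq =>
      simp only [TE, tasks]
      rw [← Nat.add_assoc]
      exact ihq _ _ (ihp _ _ hE)
  | edge x y p ihp =>
      have := ihp (F := insert (x, y) F) (k + 1) _ (full_half hE (col F x y))
      intro w hw l hl
      simp only [TE, pl_edges]
      exact this w hw l (by simp [tasks] at hl; omega)

theorem alt_mono {B : ℕ} {w w' : List Bool} (h : Alt B w) (hw : w.Sublist w') : Alt B w' := by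
  obtain ⟨l, h1, h2, h3⟩ := h
  exact ⟨l, h1.trans hw, h2, h3⟩

theorem alt_double {B : ℕ} (hB : 1 ≤ B) {w m : List Bool} (h : Alt B w) (ht : true ∈ m)
    (hf : false ∈ m) : Alt (2 * B + 1) (w.reverse ++ m ++ w) := by
  obtain ⟨l, h1, h2, h3⟩ := h
  cases l with
  | nil => simp at h3; omega
  | cons b l =>
      refine ⟨(b :: l).reverse ++ [!b] ++ (b :: l), ?_, ?_, ?_⟩
      · refine List.Sublist.append (List.Sublist.append h1.reverse ?_) h1
        rw [List.singleton_sublist]
        cases b
        · simpa using ht
        · simpa using hf
      · rw [List.isChain_append]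
        refine ⟨?_, h2, ?_⟩
        · rw [List.isChain_append]
          refine ⟨?_, by simp, ?_⟩
          · rw [List.isChain_reverse]
            exact h2.imp (fun a b hab => hab.symm)
          · intro c hc d hd
            simp at hc hd
            subst hd; subst hc
            simp
        · intro c hc d hd
          simp at hc hd
          subst hd; subst hc
          simp
      · simp at h3 ⊢; omega

theorem blocks_edges {B : ℕ} (L : List (V × V)) (p : Prog V) (hp : Blocks B p)
    (h : ∀ e ∈ L, Alt B (wd e.1 e.2 (pl p))) : Blocks B (edges L p) := by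
  induction L with
  | nil => exact hp
  | cons e L ih =>
      refine ⟨?_, ih (fun e he => h e (by simp [he]))⟩
      have : pl (L.foldr (fun e q => edge e.1 e.2 q) p) = pl p := pl_edges L p
      rw [this]
      exact h e (by simp)

theorem blocks_map_inj {B : ℕ} {f : V → W} (hf : Function.Injective f) {p : Prog V}
    (h : Blocks B p) : Blocks B (map f p) := by
  refine blocks_map (S := Set.univ) (fun a _ b _ hab => hf hab) ?_ h
  clear h
  induction p with
  | nil => trivial
  | pulse v => trivial
  | seq p q hp hq => exact ⟨hp, hq⟩
  | edge x y p hp => exact ⟨trivial, trivial, hp⟩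

theorem blocks_TE {B : ℕ} (hB : 1 ≤ B) {F : Set (V × V)} {p : Prog V} {S : Set V}
    (hp : Forest F p) (hS : Uses S p) (hb : Blocks B p) (k : ℕ)
    (E : Prog (V × List Bool)) (hE : Full S k E) (hbE : Blocks (2 * B + 1) E) :
    Blocks (2 * B + 1) (TE F p k E) := by
  induction p generalizing F k E with
  | nil => simpa [TE] using hbE
  | pulse v =>
      simp only [TE]
      exact ⟨blocks_pulseAll _ _, hbE, blocks_pulseAll _ _⟩
  | seq p q ihp ihq =>
      simp only [TE]
      exact ihq hp.2 hS.2 hb.2 _ _ (full_TE _ _ hE) (ihp hp.1 hS.1 hb.1 _ _ hE hbE)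
  | edge x y p ihp =>
      obtain ⟨hex, h4⟩ := hp
      obtain ⟨h1, h2, h3⟩ := col_spec hex
      have hxy : x ≠ y := by
        intro h; subst h; rw [h2] at h3; cases h3
      simp only [TE]
      set φ := col F x y with hφ
      have hbE1 : Blocks (2 * B + 1) (seq (map (inj false φ) E) (map (inj true φ) E)) :=
        ⟨blocks_map_inj (inj_injective _ _) hbE, blocks_map_inj (inj_injective _ _) hbE⟩
      apply blocks_edges
      · exact ihp h4 hS.2.2 hb.2 _ _ (full_half hE φ) hbE1
      · intro e he
        simp only [List.mem_map] at he
        obtain ⟨l, hl, rfl⟩ := he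
        have hlen : l.length = k + 1 + tasks p := mem_idx.1 hl
        simp only
        rw [wd_TE h4 (k + 1) _ x y (by simp) l hlen]
        apply alt_double hB hb.1
        · exact true_mem_wd (full_half hE φ x hS.1 _ (by simp [hlen]))
        · exact false_mem_wd (by simp [hxy]) (full_half hE φ y hS.2.1 _ (by simp [hlen]))

theorem uses_edges {S : Set V} (L : List (V × V)) (p : Prog V) (hp : Uses S p)
    (h : ∀ e ∈ L, e.1 ∈ S ∧ e.2 ∈ S) : Uses S (edges L p) := by
  induction L with
  | nil => exact hp
  | cons e L ih => exact ⟨(h e (by simp)).1, (h e (by simp)).2, ih (fun e he => h e (by simp [he]))⟩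

theorem uses_TE {F : Set (V × V)} {p : Prog V} {S : Set V} (hS : Uses S p) (k : ℕ)
    (E : Prog (V × List Bool)) (hE : Uses {w | w.1 ∈ S ∧ w.2.length = k} E) :
    Uses {w | w.1 ∈ S ∧ w.2.length = k + tasks p} (TE F p k E) := by
  induction p generalizing F k E with
  | nil => simpa [TE, tasks] using hE
  | pulse v =>
      have : Uses {w : V × List Bool | w.1 ∈ S ∧ w.2.length = k}
          (pulseAll ((idx k).map (fun l => (v, l)))) := by
        apply uses_pulseAll
        intro w hw
        simp only [List.mem_map] at hw
        obtain ⟨l, hl, rfl⟩ := hw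
        exact ⟨hS, mem_idx.1 hl⟩
      simp only [TE, tasks, Nat.add_zero]
      exact ⟨this, hE, this⟩
  | seq p q ihp ihq =>
      simp only [TE, tasks]
      rw [← Nat.add_assoc]
      exact ihq hS.2 _ _ (ihp hS.1 _ _ hE)
  | edge x y p ihp =>
      have hE1 : Uses {w : V × List Bool | w.1 ∈ S ∧ w.2.length = k + 1}
          (seq (map (inj false (col F x y)) E) (map (inj true (col F x y)) E)) := by
        constructor <;>
        · refine uses_mono (uses_map hE) ?_
          rintro w ⟨u, ⟨hu1, hu2⟩, rfl⟩
          exact ⟨hu1, by simp only [inj, List.length_cons, hu2]⟩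
      have := ihp (F := insert (x, y) F) hS.2.2 (k + 1) _ hE1
      simp only [TE, tasks]
      have harith : k + (tasks p + 1) = k + 1 + tasks p := by ring
      rw [harith]
      apply uses_edges _ _ this
      intro e he
      simp only [List.mem_map] at he
      obtain ⟨l, hl, rfl⟩ := he
      exact ⟨⟨hS.1, mem_idx.1 hl⟩, ⟨hS.2.1, mem_idx.1 hl⟩⟩

/-! ### good programs -/

/-- there are forest programs all of whose edges see `B` alternating pulses, with very few
pulses and very few vertices compared to the number of edges -/
def Good (B : ℕ) : Prop :=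
  ∀ K : ℕ, ∃ (V : Type) (X : List V) (P : Prog V), 0 < tasks P ∧ K * pulses P ≤ tasks P ∧
    K * X.length ≤ tasks P ∧ Uses {v | v ∈ X} P ∧ Forest ∅ P ∧ Blocks B P

/-- the star -/
def star (N : ℕ) : Prog ℕ := edges ((List.range N).map (fun i => (0, i + 1))) (pulse 0)

/-- repeated star -/
def stars (N : ℕ) : ℕ → Prog ℕ
  | 0 => nil
  | m + 1 => seq (star N) (stars N m)

theorem good_one : Good 1 := by
  intro K
  have hs : ∀ N m, tasks (stars N m) = m * N ∧ pulses (stars N m) = m := by
    intro N m
    induction m with
    | zero => simp [stars, tasks, pulses]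
    | succ m ih =>
        simp only [stars, tasks, pulses, star, tasks_edges, pulses_edges, ih, List.length_map,
          List.length_range]
        constructor <;> ring
  have huse : ∀ N m, Uses {v | v ∈ List.range (N + 1)} (stars N m) := by
    intro N m
    induction m with
    | zero => trivial
    | succ m ih =>
        refine ⟨?_, ih⟩
        apply uses_edges
        · simp [Uses]
        · intro e he
          simp only [List.mem_map, List.mem_range] at he
          obtain ⟨i, hi, rfl⟩ := he
          simp only [Set.mem_ofPred_eq, List.mem_range]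
          omega
  have hfor : ∀ N m, Forest ∅ (stars N m) := by
    intro N m
    induction m with
    | zero => trivial
    | succ m ih =>
        refine ⟨?_, ih⟩
        have gen : ∀ (L : List ℕ) (F : Set (ℕ × ℕ)), L.Nodup →
            (∀ e ∈ F, e.1 = 0 ∧ ∃ i, i ∉ L ∧ e.2 = i + 1) →
            Forest F (edges (L.map (fun i => (0, i + 1))) (pulse 0)) := by
          intro L
          induction L with
          | nil => intro F _ _; trivial
          | cons i L ihL =>
              intro F hL hF
              refine ⟨⟨fun v => decide (v = i + 1), ?_, ?_, ?_⟩, ?_⟩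
              · intro e he
                obtain ⟨h1, j, hj, h2⟩ := hF e he
                have : j ≠ i := fun h => hj (by simp [h])
                simp [h1, h2, this]
              · simp
              · simp
              · apply ihL _ (List.nodup_cons.1 hL).2
                intro e he
                rcases he with rfl | he
                · exact ⟨rfl, i, (List.nodup_cons.1 hL).1, rfl⟩
                · obtain ⟨h1, j, hj, h2⟩ := hF e he
                  exact ⟨h1, j, fun h => hj (by simp [h]), h2⟩
        exact gen _ _ List.nodup_range (by simp)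
  have hbl : ∀ N m, Blocks 1 (stars N m) := by
    intro N m
    induction m with
    | zero => trivial
    | succ m ih =>
        refine ⟨?_, ih⟩
        apply blocks_edges
        · trivial
        · intro e he
          simp only [List.mem_map, List.mem_range] at he
          obtain ⟨i, hi, rfl⟩ := he
          refine ⟨[true], ?_, by simp, rfl⟩
          simp [wd, pl]
  refine ⟨ℕ, List.range (K + 1 + 1), stars (K + 1) (K + 2), ?_, ?_, ?_, huse _ _, hfor _ _,
    hbl _ _⟩
  · rw [(hs _ _).1]; positivity
  · rw [(hs _ _).1, (hs _ _).2]; nlinarith
  · rw [(hs _ _).1, List.length_range]; nlinarith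

theorem good_step {B : ℕ} (hB : 1 ≤ B) (h : Good B) : Good (2 * B + 1) := by
  intro K
  obtain ⟨V, X, P, h0, h1, h2, h3, h4, h5⟩ := h (3 * K)
  let E0 : Prog (V × List Bool) := pulseAll (X.map (fun v => (v, [])))
  refine ⟨V × List Bool, X.flatMap (fun v => (idx (tasks P)).map (fun l => (v, l))),
    TE ∅ P 0 E0, ?_, ?_, ?_, ?_, ?_, ?_⟩
  · rw [tasks_TE]
    have : 0 < tasks P * 2 ^ (0 + tasks P) := by positivity
    omega
  · rw [tasks_TE, pulses_TE]
    simp only [E0, tasks_pulseAll, pulses_pulseAll, List.length_map, Nat.zero_add, Nat.zero_mul]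
    have : K * (X.length * 2 ^ tasks P + 2 * pulses P * 2 ^ tasks P) =
        (K * X.length + 2 * (K * pulses P)) * 2 ^ tasks P := by ring
    rw [this]
    apply Nat.mul_le_mul_right
    nlinarith
  · rw [tasks_TE]
    simp only [E0, tasks_pulseAll, Nat.zero_add, Nat.zero_mul]
    have hlen : (X.flatMap (fun v => (idx (tasks P)).map (fun l => (v, l)))).length =
        X.length * 2 ^ tasks P := by
      simp [List.length_flatMap, length_idx]
    rw [hlen, ← Nat.mul_assoc]
    apply Nat.mul_le_mul_right
    nlinarith
  · have := uses_TE (F := ∅) h3 0 E0 (uses_pulseAll _ _ (by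
      intro w hw
      simp only [List.mem_map] at hw
      obtain ⟨v, hv, rfl⟩ := hw
      exact ⟨hv, rfl⟩))
    refine uses_mono this ?_
    rintro ⟨v, l⟩ ⟨hv, hl⟩
    simp only [Set.mem_ofPred_eq, List.mem_flatMap, List.mem_map] at hv ⊢
    exact ⟨v, hv, l, mem_idx.2 (by simpa using hl), rfl⟩
  · have := forest_TE h4 0 E0 (forest_pulseAll _ _)
    exact this.mono (by simp)
  · apply blocks_TE hB h4 h3 h5
    · intro v hv l hl
      simp only [E0, pl_pulseAll, List.mem_map]
      exact ⟨v, hv, by simp [List.length_eq_zero_iff.1 hl]⟩
    · exact blocks_pulseAll _ _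

theorem good_all (r : ℕ) : Good (2 ^ (r + 1) - 1) := by
  induction r with
  | zero => exact good_one
  | succ r ih =>
      have h1 : 1 ≤ 2 ^ (r + 1) - 1 := by
        have : 2 ≤ 2 ^ (r + 1) := by
          calc 2 = 2 ^ 1 := rfl
            _ ≤ 2 ^ (r + 1) := Nat.pow_le_pow_right (by norm_num) (by omega)
        omega
      have := good_step h1 ih
      have h2 : 2 * (2 ^ (r + 1) - 1) + 1 = 2 ^ (r + 1 + 1) - 1 := by
        rw [pow_succ 2 (r + 1)]; omega
      rwa [h2] at this

end Prog

end Pool.Agent.H305
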